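import Pool.Agent.Helper94.PP.GoalsA1
import Pool.Agent.Helper17.RS.UNF
import Pool.Agent.Helper51.RS.GFB
import Pool.Agent.Helper24.RS.LSM
import Pool.Agent.Helper69.RS.UNI

/-!
# Project PP, packet A1-UNF: unfolding for a general weight
-/

set_option autoImplicit false

namespace Pool.Agent.Helper26.PP

open NumberField Module IsDedekindDomain
open Pool.Agent.Helper38.RS (hf Gf absN S_GFB)
open Pool.Agent.Helper94.PP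
open Pool.Agent.Helper17.RS

theorem s_gfb : S_GFB := Pool.Agent.Helper51.RS.s_gfb Pool.Agent.Helper24.RS.s_lsm
  Pool.Agent.Helper69.RS.s_uni

theorem goalUNF : A1_UNF := by
  intro F _ _ w hS f hf1 Λ
  obtain ⟨hsum, hG, ⟨c, hc, hGc⟩, hpos⟩ := s_gfb F
  have hSJ : Summable fun J : {J : Ideal (𝓞 F) // J ≠ ⊥ ∧ J ≤ Λ ∧ J.IsPrincipal} =>
      |w (Ideal.absNorm J.1)| := summable_sub (fun J => |w (Ideal.absNorm J)|) Λ hS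
  let e := Equiv.ofBijective (par Λ) (par_bij Λ)
  have hval : ∀ p : {J : Ideal (𝓞 F) // J ≠ ⊥ ∧ J ≤ Λ ∧ J.IsPrincipal} × (𝓞 F)ˣ,
      gw w (((e p).1 : 𝓞 F) : F) = w (Ideal.absNorm p.1.1) / Gf ((gen p.1 : 𝓞 F) : F) *
        hf (((p.2 : 𝓞 F) : F) * ((gen p.1 : 𝓞 F) : F)) := by
    intro p
    have hp : (((e p).1 : 𝓞 F) : F) = ((p.2 : 𝓞 F) : F) * ((gen p.1 : 𝓞 F) : F) := by
      show (((par Λ p).1 : 𝓞 F) : F) = _
      rw [par_val]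
      simp
    rw [hp]
    unfold gw
    rw [hG, absN_unit_mul, absN_eq_absNorm, span_gen]
    ring
  have hpos' : ∀ J : {J : Ideal (𝓞 F) // J ≠ ⊥ ∧ J ≤ Λ ∧ J.IsPrincipal},
      0 < Gf ((gen J : 𝓞 F) : F) := by
    intro J
    exact lt_of_lt_of_le hc (hGc _ (by exact_mod_cast gen_ne J))
  have hfne : ∀ (J : {J : Ideal (𝓞 F) // J ≠ ⊥ ∧ J ≤ Λ ∧ J.IsPrincipal}) (u : (𝓞 F)ˣ),
      0 ≤ hf (((u : 𝓞 F) : F) * ((gen J : 𝓞 F) : F)) := by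
    intro J u
    refine (hpos _ ?_).1.le
    refine mul_ne_zero ?_ (by exact_mod_cast gen_ne J)
    exact_mod_cast u.ne_zero
  have hinner0 : ∀ (J : {J : Ideal (𝓞 F) // J ≠ ⊥ ∧ J ≤ Λ ∧ J.IsPrincipal}) (x : ℝ),
      HasSum (fun u : (𝓞 F)ˣ => x / Gf ((gen J : 𝓞 F) : F) *
        hf (((u : 𝓞 F) : F) * ((gen J : 𝓞 F) : F))) x := by
    intro J x
    have h3 := (hsum ((gen J : 𝓞 F) : F) (by exact_mod_cast gen_ne J)).hasSum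
    have h4 := h3.mul_left (x / Gf ((gen J : 𝓞 F) : F))
    have h5 : x / Gf ((gen J : 𝓞 F) : F) *
        (∑' u : (𝓞 F)ˣ, hf (((u : 𝓞 F) : F) * ((gen J : 𝓞 F) : F))) = x := by
      have : (∑' u : (𝓞 F)ˣ, hf (((u : 𝓞 F) : F) * ((gen J : 𝓞 F) : F))) =
        Gf ((gen J : 𝓞 F) : F) := rfl
      rw [this, div_mul_cancel₀ _ (hpos' J).ne']
    rw [h5] at h4
    exact h4
  have habs : ∀ p : {J : Ideal (𝓞 F) // J ≠ ⊥ ∧ J ≤ Λ ∧ J.IsPrincipal} × (𝓞 F)ˣ,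
      |w (Ideal.absNorm p.1.1) / Gf ((gen p.1 : 𝓞 F) : F) *
        hf (((p.2 : 𝓞 F) : F) * ((gen p.1 : 𝓞 F) : F))| =
      |w (Ideal.absNorm p.1.1)| / Gf ((gen p.1 : 𝓞 F) : F) *
        hf (((p.2 : 𝓞 F) : F) * ((gen p.1 : 𝓞 F) : F)) := by
    intro p
    rw [abs_mul, abs_div, abs_of_pos (hpos' p.1), abs_of_nonneg (hfne p.1 p.2)]
  have hprod : Summable fun p : {J : Ideal (𝓞 F) // J ≠ ⊥ ∧ J ≤ Λ ∧ J.IsPrincipal} × (𝓞 F)ˣ =>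
      |w (Ideal.absNorm p.1.1)| / Gf ((gen p.1 : 𝓞 F) : F) *
        hf (((p.2 : 𝓞 F) : F) * ((gen p.1 : 𝓞 F) : F)) := by
    rw [summable_prod_of_nonneg]
    · refine ⟨fun J => (hinner0 J |w (Ideal.absNorm J.1)|).summable, ?_⟩
      refine hSJ.congr (fun J => ?_)
      exact ((hinner0 J |w (Ideal.absNorm J.1)|).tsum_eq).symm
    · intro p
      exact mul_nonneg (div_nonneg (abs_nonneg _) (hpos' p.1).le) (hfne p.1 p.2)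
  have hfirst : Summable fun α : {α : 𝓞 F // α ≠ 0 ∧ α ∈ Λ} => |gw w ((α.1 : 𝓞 F) : F)| := by
    rw [← e.summable_iff]
    refine hprod.congr (fun p => ?_)
    rw [← habs p, ← hval p]
    rfl
  refine ⟨hfirst, ?_⟩
  have hspan : ∀ p : {J : Ideal (𝓞 F) // J ≠ ⊥ ∧ J ≤ Λ ∧ J.IsPrincipal} × (𝓞 F)ˣ,
      Ideal.span {(e p).1} = p.1.1 := fun p => span_par Λ p
  have hprod2 : Summable fun p : {J : Ideal (𝓞 F) // J ≠ ⊥ ∧ J ≤ Λ ∧ J.IsPrincipal} × (𝓞 F)ˣ =>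
      f p.1.1 * ((w (Ideal.absNorm p.1.1) / Gf ((gen p.1 : 𝓞 F) : F) *
        hf (((p.2 : 𝓞 F) : F) * ((gen p.1 : 𝓞 F) : F)) : ℝ) : ℂ) := by
    refine Summable.of_norm_bounded hprod (fun p => ?_)
    rw [norm_mul, Complex.norm_real, Real.norm_eq_abs, habs p]
    exact mul_le_of_le_one_left (mul_nonneg (div_nonneg (abs_nonneg _) (hpos' p.1).le)
      (hfne p.1 p.2)) (hf1 _)
  rw [← e.tsum_eq (fun α : {α : 𝓞 F // α ≠ 0 ∧ α ∈ Λ} =>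
    f (Ideal.span {α.1}) * (gw w ((α.1 : 𝓞 F) : F) : ℂ))]
  have h7 : (∑' p : {J : Ideal (𝓞 F) // J ≠ ⊥ ∧ J ≤ Λ ∧ J.IsPrincipal} × (𝓞 F)ˣ,
      f (Ideal.span {(e p).1}) * (gw w (((e p).1 : 𝓞 F) : F) : ℂ)) =
      ∑' p : {J : Ideal (𝓞 F) // J ≠ ⊥ ∧ J ≤ Λ ∧ J.IsPrincipal} × (𝓞 F)ˣ,
      f p.1.1 * ((w (Ideal.absNorm p.1.1) / Gf ((gen p.1 : 𝓞 F) : F) *
        hf (((p.2 : 𝓞 F) : F) * ((gen p.1 : 𝓞 F) : F)) : ℝ) : ℂ) := by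
    refine tsum_congr (fun p => ?_)
    rw [hspan p, hval p]
  rw [h7, hprod2.tsum_prod]
  refine tsum_congr (fun J => ?_)
  have h8 := Complex.hasSum_ofReal.2 (hinner0 J (w (Ideal.absNorm J.1)))
  exact (h8.mul_left (f J.1)).tsum_eq

end Pool.Agent.Helper26.PP
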