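import Pool.Agent.Helper88.PP.Goals

/-! Packet S2: the mean square against the number of primes. -/

set_option autoImplicit false

open Finset Filter Topology
open Pool.Agent.Helper88.PP

open scoped Classical

namespace Pool.Agent.Helper26.PP

theorem om_nonneg (y z : ℕ) : 0 ≤ om y z := by
  refine Finset.prod_nonneg fun p hp => ?_
  have h1 : p.Prime := (Finset.mem_filter.mp hp).2
  have h2 : (2 : ℝ) ≤ p := by exact_mod_cast h1.two_le
  have h3 : 1 / (p : ℝ) ≤ 1 := by
    rw [div_le_one (by linarith)]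
    linarith
  linarith

theorem LA_ne {z m m' s : ℕ} (hs : s ∈ LA z m m') : s ≠ 0 ∧ s < z ^ m' := by
  have h1 := (Finset.mem_filter.mp hs).1
  have h2 := Finset.mem_Ico.mp (Finset.mem_filter.mp h1).1
  exact ⟨by omega, h2.2⟩

theorem ee_le {z m m' s : ℕ} (hs : s ∈ LA z m m') : ee z s ≤ m' := by
  obtain ⟨h1, h2⟩ := LA_ne hs
  exact Nat.log_lt_of_lt_pow h1 h2

/-- the weight of a label in the ideal model -/
noncomputable def wt (q E z y s : ℕ) : ℝ := aa q E z s ^ 2 * (om y z * (Nat.totient s : ℝ))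

theorem wt_nonneg (q E z y s : ℕ) : 0 ≤ wt q E z y s :=
  mul_nonneg (sq_nonneg _) (mul_nonneg (om_nonneg y z) (Nat.cast_nonneg _))

theorem term_eq (q E z y s : ℕ) :
    (if s = 0 then 1 else (aa q E z s) ^ 2) * ww (om y z) s =
      if s = 0 then 1 else wt q E z y s := by
  by_cases h : s = 0
  · simp [h, ww]
  · simp [h, ww, wt]

theorem sum_wt (q E z y : ℕ) (hV : VV z (m1 q E) (m2 q E) ≠ 0) :
    ∑ s ∈ LA z (m1 q E) (m2 q E), (ee z s : ℝ) * wt q E z y s =
      om y z / VV z (m1 q E) (m2 q E) := by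
  have h1 : ∀ s ∈ LA z (m1 q E) (m2 q E), (ee z s : ℝ) * wt q E z y s =
      om y z / VV z (m1 q E) (m2 q E) ^ 2 * (1 / ((Nat.totient s : ℝ) * ee z s)) := by
    intro s hs
    have h2 : (Nat.totient s : ℝ) ≠ 0 := by
      have := Nat.totient_pos.mpr (Nat.pos_of_ne_zero (LA_ne hs).1)
      positivity
    have h3 : (ee z s : ℝ) ≠ 0 := by
      have : 0 < ee z s := Nat.succ_pos _
      positivity
    rw [wt, aa]
    field_simp
  rw [Finset.sum_congr rfl h1, ← Finset.mul_sum]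
  change om y z / VV z (m1 q E) (m2 q E) ^ 2 * VV z (m1 q E) (m2 q E) = _
  field_simp

theorem DD_ge (q E z y : ℕ) (P : Finset ℕ) : 1 ≤ DD q E z y P := by
  have h1 : ∀ r ∈ TT q E z P, 0 ≤ ∏ i : P,
      ((if r i = 0 then 1 else (aa q E z (r i)) ^ 2) * ww (om y z) (r i)) := by
    intro r _
    refine Finset.prod_nonneg fun i _ => ?_
    rw [term_eq]
    split_ifs
    · exact zero_le_one
    · exact wt_nonneg _ _ _ _ _
  have h2 : (0 : P → ℕ) ∈ TT q E z P := by
    refine Finset.mem_filter.mpr ⟨Fintype.mem_piFinset.mpr fun i => Finset.mem_insert_self _ _, ?_⟩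
    simp
  refine le_trans ?_ (Finset.single_le_sum h1 h2)
  simp [ww]

theorem key (h3 : StmtRA) (q E z y : ℕ) (P : Finset ℕ) (hV : VV z (m1 q E) (m2 q E) ≠ 0)
    (hm : m2 q E ≤ MM E) :
    ((MM E : ℝ) - m2 q E) * ∑ r ∈ (TT q E z P).filter (fun r => MM E < cost z r + m2 q E),
      ∏ i : P, ((if r i = 0 then 1 else (aa q E z (r i)) ^ 2) * ww (om y z) (r i)) ≤
    (P.card : ℝ) * (om y z / VV z (m1 q E) (m2 q E)) * DD q E z y P := by
  have h4 := h3 P (LA z (m1 q E) (m2 q E)) (ee z) (wt q E z y) (MM E) (m2 q E)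
    (fun h => (LA_ne h).1 rfl) (fun r hr => ee_le hr) (wt_nonneg q E z y) hm
  rw [sum_wt q E z y hV, Fintype.card_coe] at h4
  have h5 : ∀ r : P → ℕ, ∏ i : P,
      ((if r i = 0 then 1 else (aa q E z (r i)) ^ 2) * ww (om y z) (r i)) =
      ∏ i : P, (if r i = 0 then 1 else wt q E z y (r i)) := fun r =>
    Finset.prod_congr rfl fun i _ => term_eq _ _ _ _ _
  rw [DD]
  simp only [h5]
  rw [TT, Finset.filter_filter]
  exact h4

theorem s2 (h1 : StmtPW) (h2 : StmtGT) (h3 : StmtRA) (h4 : StmtMA) : StmtS2 := by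
  intro A ε hA hε
  obtain ⟨c, C, hc, _, hMA⟩ := h4
  refine ⟨max 1 (1156 * A ^ 2 / (c * ε)), le_max_left _ _, fun q hq => ?_⟩
  have hq1 : GoodR 1 q := ⟨hq.1, fun m z hm hz => le_trans (le_max_left _ _) (hq.2 m z hm hz)⟩
  obtain ⟨E0, hE0⟩ := h2 q hq1 A (ε / (2 * A)) hA (by positivity)
  refine ⟨max E0 (64 * q + 272), fun E hE => ?_⟩
  obtain ⟨z0, hz0⟩ := hE0 E (le_trans (le_max_left _ _) hE)
  refine ⟨max z0 2, fun z hz x y hSc b hb P hP hPA => ?_⟩
  have hE1 : 64 * q + 272 ≤ E := le_trans (le_max_right _ _) hE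
  have hz2 : 2 ≤ z := le_trans (le_max_right _ _) hz
  have hq0 : 1 ≤ q := hq.1
  have hGT := hz0 z (le_trans (le_max_left _ _) hz) x y hSc b hb P hP hPA
  -- parameters
  have hM : 16 ≤ MM E := by unfold MM; omega
  have hm1 : 1 ≤ m1 q E := by
    unfold m1
    rw [Nat.one_le_div_iff (by omega)]
    omega
  have hm2 : 2 * m2 q E ≤ MM E := by
    have h5 : 2 * q * (MM E / (2 * q)) ≤ MM E := Nat.mul_div_le _ _
    calc 2 * m2 q E = 2 * q * (MM E / (2 * q)) := by unfold m2 m1 MM; ring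
      _ ≤ MM E := h5
  have hm2' : m2 q E ≤ MM E := by omega
  have hEM : E ≤ 17 * MM E := by unfold MM; omega
  have hVL : max 1 (1156 * A ^ 2 / (c * ε)) ≤ VV z (m1 q E) (m2 q E) := hq.2 _ z hm1 hz2
  have hV1 : 1 ≤ VV z (m1 q E) (m2 q E) := le_trans (le_max_left _ _) hVL
  have hVA : 1156 * A ^ 2 / (c * ε) ≤ VV z (m1 q E) (m2 q E) := le_trans (le_max_right _ _) hVL
  have hV0 : VV z (m1 q E) (m2 q E) ≠ 0 := by linarith
  have hW1 : c * MM E ≤ V1 E z := (hMA z (MM E) hz2 (by omega)).1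
  have hXX : 0 ≤ XX x := by unfold XX; positivity
  have hom := om_nonneg y z
  have hMr : (16 : ℝ) ≤ MM E := by exact_mod_cast hM
  have hm2r : 2 * (m2 q E : ℝ) ≤ MM E := by exact_mod_cast hm2
  have hEMr : (E : ℝ) ≤ 17 * MM E := by exact_mod_cast hEM
  have hEr : (0 : ℝ) < E := by
    have : (0 : ℕ) < E := by omega
    exact_mod_cast this
  have hW0 : 0 < V1 E z := lt_of_lt_of_le (by positivity) hW1
  -- at a prime
  have hpt : ∀ n ∈ NN x b, WW q E z y P n ^ 2 * ((P.filter (fun h => (n + h).Prime)).card : ℝ) ≤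
      ∑ h : P, GG q E z y P h n ^ 2 := by
    intro n hn
    have hn1 : x / 2 < n := (Finset.mem_Ioc.mp (Finset.mem_filter.mp hn).1).1
    have hzn : z ^ MM E ≤ n := by
      have h6 : z ^ MM E * 2 ≤ x := by
        refine le_trans ?_ hSc.1
        calc z ^ MM E * 2 ≤ z ^ MM E * z := Nat.mul_le_mul_left _ hz2
          _ = z ^ (MM E + 1) := (pow_succ _ _).symm
          _ ≤ z ^ E := Nat.pow_le_pow_right (by omega) (by unfold MM; omega)
      omega
    have h7 : WW q E z y P n ^ 2 * ((P.filter (fun h => (n + h).Prime)).card : ℝ) =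
        ∑ h : P, if (n + (h : ℕ)).Prime then WW q E z y P n ^ 2 else 0 := by
      rw [Finset.sum_coe_sort P (fun h => if (n + h).Prime then WW q E z y P n ^ 2 else 0),
        ← Finset.sum_filter, Finset.sum_const, nsmul_eq_mul, mul_comm]
    rw [h7]
    refine Finset.sum_le_sum fun h _ => ?_
    split_ifs with hpr
    · rw [h1 q E z y P h n (by omega) hm1 hz2 hV0 hm2' hpr hzn]
    · exact sq_nonneg _
  refine le_trans (Finset.sum_le_sum hpt) ?_
  rw [Finset.sum_comm]
  refine le_trans (Finset.sum_le_sum fun h _ => hGT h) ?_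
  rw [Finset.sum_const, nsmul_eq_mul, Finset.card_univ, Fintype.card_coe]
  set Sig := ∑ r ∈ (TT q E z P).filter (fun r => MM E < cost z r + m2 q E), ∏ i : P,
        ((if r i = 0 then 1 else (aa q E z (r i)) ^ 2) * ww (om y z) (r i)) with hSig
  set V := VV z (m1 q E) (m2 q E) with hV
  set W := V1 E z with hW
  set D := DD q E z y P with hD
  set M : ℝ := (MM E : ℝ) with hMdef
  set m : ℝ := (m2 q E : ℝ) with hmdef
  set o := om y z with ho
  have hk : (M - m) * Sig ≤ (P.card : ℝ) * (o / V) * D := key h3 q E z y P hV0 hm2'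
  have hD1 : 1 ≤ D := DD_ge q E z y P
  have hPo : 0 ≤ (P.card : ℝ) * o := mul_nonneg (Nat.cast_nonneg _) hom
  have hMm : M / 2 ≤ M - m := by linarith
  have hMm0 : 0 < M - m := by linarith
  have hV00 : 0 < V := by linarith
  have hS : Sig ≤ (P.card : ℝ) * (o / V) * D / (M - m) := by
    rw [le_div_iff₀ hMm0]; linarith
  have hS2 : (P.card : ℝ) * o * (1 / W * Sig) ≤ ε / 2 * D := by
    have e1 : (P.card : ℝ) * o * (1 / W * Sig) ≤
        (P.card : ℝ) * o * (1 / W * ((P.card : ℝ) * (o / V) * D / (M - m))) := by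
      gcongr
    refine le_trans e1 ?_
    have e2 : (P.card : ℝ) * o * (1 / W * ((P.card : ℝ) * (o / V) * D / (M - m))) =
        ((P.card : ℝ) * o) ^ 2 * D / (W * V * (M - m)) := by
      field_simp
    rw [e2, div_le_iff₀ (by positivity)]
    have e3 : ((P.card : ℝ) * o) ^ 2 ≤ (A * E) ^ 2 := pow_le_pow_left₀ hPo hPA 2
    have e4 : (A * E) ^ 2 ≤ A ^ 2 * (289 * M ^ 2) := by
      have : (E : ℝ) ^ 2 ≤ (17 * M) ^ 2 := pow_le_pow_left₀ hEr.le hEMr 2
      nlinarith [sq_nonneg A]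
    have e5 : 1156 * A ^ 2 ≤ V * (c * ε) := by
      rwa [div_le_iff₀ (by positivity)] at hVA
    have e6 : c * M * V * (M / 2) ≤ W * V * (M - m) := by
      gcongr
    have e7 : A ^ 2 * (289 * M ^ 2) ≤ ε / 2 * (c * M * V * (M / 2)) := by
      have : A ^ 2 * (289 * M ^ 2) * 4 ≤ V * (c * ε) * M ^ 2 := by
        nlinarith [sq_nonneg M]
      nlinarith
    calc ((P.card : ℝ) * o) ^ 2 * D ≤ (ε / 2 * (W * V * (M - m))) * D := by
          refine mul_le_mul_of_nonneg_right ?_ (by linarith)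
          refine le_trans e3 (le_trans e4 (le_trans e7 ?_))
          exact mul_le_mul_of_nonneg_left e6 (by positivity)
      _ = ε / 2 * D * (W * V * (M - m)) := by ring
  have hS3 : (P.card : ℝ) * o * (ε / (2 * A) / E) ≤ ε / 2 * D := by
    have e1 : (P.card : ℝ) * o * (ε / (2 * A) / E) ≤ A * E * (ε / (2 * A) / E) := by
      gcongr
    have e2 : A * E * (ε / (2 * A) / E) = ε / 2 := by
      field_simp
    rw [e2] at e1
    refine le_trans e1 ?_
    nlinarith
  calc (P.card : ℝ) * (XX x * o * (1 / W * Sig + ε / (2 * A) / E))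
      = XX x * ((P.card : ℝ) * o * (1 / W * Sig) + (P.card : ℝ) * o * (ε / (2 * A) / E)) := by ring
    _ ≤ XX x * (ε / 2 * D + ε / 2 * D) := mul_le_mul_of_nonneg_left (add_le_add hS2 hS3) hXX
    _ = ε * (XX x * D) := by ring

end Pool.Agent.Helper26.PP
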